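import Pool.Agent.Q123.SR.Main

/-!
# MP_346585_al: removing an excellent set of faces keeps Serre's condition `(S_ℓ)`
-/

namespace Pool.Agent.Results.MP_346585_al.SerreExcellent

open Pool.Agent.Q123.SR

universe u

theorem result : ∀ (n : ℕ) (K : Type u) [Field K] (Δ A : Finset (Finset (Fin n))) (l : ℕ),
    1 ≤ l → IsComplex Δ → Excellent Δ A → SerreS K Δ l → SerreS K (remove Δ A) l := by
  intro n K _ Δ A l _ hΔ hA hS
  exact main hΔ hA hS

end Pool.Agent.Results.MP_346585_al.SerreExcellent
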